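import Pool.Agent.Helper62.NT.Goals

/-!
# Project NT (MP_8ff381_an): goal UPP
-/

set_option autoImplicit false

noncomputable section

namespace Pool.Agent.Helper44.NT.UPP

open Filter Topology Pool.Agent.Helper62.NT

theorem vb_mono {a : ℕ → ℝ} {C D : ℝ} (h : VB a C) (hCD : C ≤ D) : VB a D :=
  fun n p hp => (h n p hp).trans hCD

theorem vb_comp {a : ℕ → ℝ} {C : ℝ} (h : VB a C) (g : ℕ → ℕ) (hg : Monotone g) :
    VB (fun t => a (g t)) C :=
  fun n p hp => h n (fun i => g (p i)) (hg.comp hp)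

/-- a step -/
def ind (K : ℕ) (c : ℝ) (t : ℕ) : ℝ := if K < t then c else 0

theorem vb_ind (K : ℕ) (c : ℝ) : VB (ind K c) (c ^ 2) := by
  intro n p hp
  have h1 : qs (ind K c) n p =
      ∑ i ∈ Finset.range n, (c * ind K c (p (i + 1)) - c * ind K c (p i)) := by
    unfold qs
    refine Finset.sum_congr rfl fun i _ => ?_
    have h2 : p i ≤ p (i + 1) := hp (Nat.le_succ i)
    unfold ind
    split_ifs with h3 h4 h4
    · ring
    · ring
    · omega
    · ring
  rw [h1, Finset.sum_range_sub (fun i => c * ind K c (p i))]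
  unfold ind
  split_ifs <;> nlinarith [sq_nonneg c]

theorem tendsto_ind (K : ℕ) (c : ℝ) : Tendsto (ind K c) atTop (𝓝 c) := by
  refine tendsto_const_nhds.congr' ?_
  filter_upwards [eventually_gt_atTop K] with t ht
  simp only [ind, if_pos ht]

/-- the numbers -/
theorem numbers (X Y S T η A0 V0 C ε : ℝ) (hX : 0 ≤ X) (hY : 0 ≤ Y) (hS : 0 ≤ S) (hη : 0 < η)
    (hη1 : η ≤ 1) (hA0 : 0 ≤ A0) (hV0 : 0 ≤ V0) (hA : A0 ≤ X + 2 * η) (hV : V0 ≤ Y + 2 * η)
    (hS2 : S ^ 2 ≤ A0 ^ 2 + 2 * V0 ^ 2) (hT : T ≤ S + 8 * η) (hT0 : 0 ≤ T)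
    (hXC : X ≤ 2 * C) (hYC : Y ≤ C) (hC : η * (80 * C + 172) ≤ ε) :
    T ^ 2 ≤ X ^ 2 + 2 * Y ^ 2 + ε := by
  have h1 : A0 ^ 2 ≤ (X + 2 * η) ^ 2 := pow_le_pow_left₀ hA0 hA 2
  have h2 : V0 ^ 2 ≤ (Y + 2 * η) ^ 2 := pow_le_pow_left₀ hV0 hV 2
  have h3 : T ^ 2 ≤ (S + 8 * η) ^ 2 := pow_le_pow_left₀ hT0 hT 2
  have h4 : S ≤ X + 2 * Y + 6 * η := by
    by_contra hcon
    push_neg at hcon
    have h5 : (X + 2 * Y + 6 * η) ^ 2 < S ^ 2 := pow_lt_pow_left₀ hcon (by positivity) (by norm_num)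
    nlinarith [mul_nonneg hX hY, mul_nonneg hX hη.le, mul_nonneg hY hη.le, sq_nonneg η,
      sq_nonneg Y]
  have h5 : η * S ≤ η * (X + 2 * Y + 6 * η) := mul_le_mul_of_nonneg_left h4 hη.le
  have h6 : η * X ≤ η * (2 * C) := mul_le_mul_of_nonneg_left hXC hη.le
  have h7 : η * Y ≤ η * C := mul_le_mul_of_nonneg_left hYC hη.le
  have h8 : η * η ≤ η * 1 := mul_le_mul_of_nonneg_left hη1 hη.le
  nlinarith

theorem t (hVB : S_VBAS) (hQ : S_QVBAS) (hSM : S_SMALL) (hSEP : S_SEP) : S_UPP := by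
  obtain ⟨v1, v2, v3, v4, v5, v6, v7, v8, v9, v10⟩ := hVB
  obtain ⟨q1, q2, q3, q4, q5, q6, q7⟩ := hQ
  obtain ⟨s1, s2, s3⟩ := hSM
  intro C ε hε
  set c0 : ℝ := Real.sqrt C with hc0
  have hc00 : 0 ≤ c0 := Real.sqrt_nonneg C
  set D : ℝ := 80 * c0 + 172 with hD
  have hDpos : 0 < D := by positivity
  set η : ℝ := min 1 (ε / D) with hη
  have hηpos : 0 < η := lt_min one_pos (div_pos hε hDpos)
  have hη1 : η ≤ 1 := min_le_left _ _
  have hηD : η * D ≤ ε := by
    have : η ≤ ε / D := min_le_right _ _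
    rwa [le_div_iff₀ hDpos] at this
  refine ⟨η, hηpos, ?_⟩
  intro ι F a l w m ha hal hw hwm hw0 hm
  have hC : 0 ≤ C := by
    have h := ha 0 id monotone_id
    simpa [qs] using h
  have hc0sq : c0 ^ 2 = C := Real.sq_sqrt hC
  have hBa : BV a := ⟨C, ha⟩
  obtain ⟨K₀, hK₀⟩ := s3 a (η ^ 2) hBa (by positivity)
  obtain ⟨K₁, hK₁⟩ := eventually_atTop.1 (Metric.tendsto_nhds.1 hal η hηpos)
  set K : ℕ := max K₀ K₁ with hK
  have hKa := (hK₀ K (le_max_left _ _)).1
  set η' : ℝ := η / (2 * ((K : ℝ) + 1)) with hη'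
  have hK1 : (0 : ℝ) < (K : ℝ) + 1 := by positivity
  have hη'pos : 0 < η' := by positivity
  have hη'le : η' ≤ η := by
    rw [hη', div_le_iff₀ (by positivity)]
    have : (0 : ℝ) ≤ (K : ℝ) := Nat.cast_nonneg K
    nlinarith
  have hη'2 : 4 * (K : ℝ) * η' ^ 2 ≤ η ^ 2 := by
    have h1 : 2 * ((K : ℝ) + 1) * η' = η := by
      rw [hη']
      field_simp
    have h2 : (0 : ℝ) ≤ (K : ℝ) := Nat.cast_nonneg K
    rw [← h1]
    nlinarith [sq_nonneg η', mul_nonneg h2 (sq_nonneg η'),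
      mul_nonneg (mul_nonneg h2 h2) (sq_nonneg η')]
  -- the values up to `K` are small
  have hev : ∀ᶠ i in F, ∀ t ∈ Finset.range (K + 1), |w i t| ≤ η' := by
    rw [Filter.eventually_all_finset]
    intro t _
    have h := Metric.tendsto_nhds.1 (hw0 t) η' hη'pos
    filter_upwards [h] with i hi
    rw [Real.dist_eq, sub_zero] at hi
    exact hi.le
  filter_upwards [hev, hm] with i hi hmi
  have hwi := hw i
  have hBw : BV (w i) := ⟨C, hwi⟩
  set W : ℕ → ℝ := w i with hW
  have hWK : ∀ t ≤ K, |W t| ≤ η' := fun t ht => hi t (Finset.mem_range.2 (by omega))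
  set c : ℝ := m i - W K with hc
  have hcle : |c| ≤ 2 * η := by
    have h1 := hWK K le_rfl
    have h2 : |c| ≤ |m i| + |W K| := abs_sub _ _
    linarith
  -- the parts
  have mmin : Monotone fun t : ℕ => min t K := fun s t h => min_le_min_right K h
  have mmax : Monotone fun t : ℕ => max t K := fun s t h => max_le_max_right K h
  have hBA : BV (fun t => a (min t K)) := ⟨C, vb_comp ha _ mmin⟩
  have hBr1 : BV (fun t => a (max t K) - a K) := ⟨_, hKa⟩
  have hVr1 : V (fun t => a (max t K) - a K) ≤ η := v3 _ η hηpos.le hKa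
  have hBr2 : BV (fun t => W (min t K)) := ⟨C, vb_comp hwi _ mmin⟩
  have hVr2 : V (fun t => W (min t K)) ≤ η := by
    refine v3 _ η hηpos.le (vb_mono (s1 _ K η' (fun t => hWK _ (min_le_right _ _)) ?_) hη'2)
    intro t ht
    simp only [min_eq_right ht, min_self]
  have hBr3 : BV (ind K c) := ⟨_, vb_ind K c⟩
  have hVr3 : V (ind K c) ≤ 2 * η := by
    refine (v3 _ |c| (abs_nonneg c) ?_).trans hcle
    rw [sq_abs]
    exact vb_ind K c
  have hBE : BV (fun t => W (max t K) - W K) := ⟨C, s2 W K C hwi⟩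
  have hVE : V (fun t => W (max t K) - W K) ≤ V W :=
    v3 _ _ (v1 W) (s2 W K _ fun n p hp => v2 W hBw n p hp)
  have hE' := v5 (fun t => W (max t K) - W K) (ind K c) hBE hBr3
  set E' : ℕ → ℝ := fun t => (W (max t K) - W K) - ind K c t with hE'def
  have hBE' : BV E' := hE'.1
  have hVE' : V E' ≤ V W + 2 * η := by linarith [hE'.2]
  have tmax : ∀ (b : ℕ → ℝ) (x : ℝ), Tendsto b atTop (𝓝 x) →
      Tendsto (fun t => b (max t K)) atTop (𝓝 x) := by
    intro b x hb
    refine hb.congr' ?_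
    filter_upwards [eventually_ge_atTop K] with t ht
    rw [max_eq_left ht]
  have tmin : ∀ (b : ℕ → ℝ), Tendsto (fun t => b (min t K)) atTop (𝓝 (b K)) := by
    intro b
    refine tendsto_const_nhds.congr' ?_
    filter_upwards [eventually_ge_atTop K] with t ht
    rw [min_eq_right ht]
  have hTE' : Tendsto E' atTop (𝓝 0) := by
    have h := ((tmax W (m i) (hwm i)).sub_const (W K)).sub (tendsto_ind K c)
    have h0 : m i - W K - c = 0 := by rw [hc]; ring
    rw [h0] at h
    exact h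
  have hE0 : ∀ t, t ≤ K → E' t = 0 := by
    intro t ht
    have h1 : ¬ K < t := not_lt.2 ht
    simp only [hE'def, max_eq_right ht, ind, if_neg h1, sub_self]
  have hAK : (fun t => a (min t K)) K = a K := by simp only [min_self]
  have hsep := (hSEP (fun t => a (min t K)) E' K
    (fun t ht => by simp only [min_eq_right ht, min_self]) hE0 hBE').2 hTE'
  simp only [min_self] at hsep
  -- the main term
  have hA : Qv (fun t => a (min t K)) (a K) ≤ Qv a l + 2 * η := by
    have hB : BV (fun t => -1 * (a (max t K) - a K)) := by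
      refine ⟨η ^ 2, fun n p hp => ?_⟩
      have h1 : qs (fun t => -1 * (a (max t K) - a K)) n p =
          qs (fun t => a (max t K) - a K) n p := by
        unfold qs
        refine Finset.sum_congr rfl fun i _ => ?_
        ring
      rw [h1]
      exact hKa n p hp
    have h1 := q4 a (fun t => -1 * (a (max t K) - a K)) l (-1 * (l - a K)) hBa hB
    have h2 : (fun t => a t + -1 * (a (max t K) - a K)) = fun t => a (min t K) := by
      funext t
      rcases le_total t K with h | h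
      · rw [max_eq_right h, min_eq_left h]
        ring
      · rw [max_eq_left h, min_eq_right h]
        ring
    have h3 : l + -1 * (l - a K) = a K := by ring
    rw [h2, h3] at h1
    have h4 := q6 (fun t => -1 * (a (max t K) - a K)) (-1 * (l - a K)) hB
      (((tmax a l hal).sub_const (a K)).const_mul (-1))
    have h5 := v9 (-1) (fun t => a (max t K) - a K) hBr1
    rw [abs_neg, abs_one, one_mul] at h5
    rw [h5] at h4
    linarith
  -- the rest
  have hQ1 : Qv (fun t => a (max t K) - a K) (l - a K) ≤ 2 * η :=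
    (q6 _ _ hBr1 ((tmax a l hal).sub_const (a K))).trans (by linarith)
  have hQ2 : Qv (fun t => W (min t K)) (W K) ≤ 2 * η :=
    (q6 _ _ hBr2 (tmin W)).trans (by linarith)
  have hQ3 : Qv (ind K c) c ≤ 4 * η := (q6 _ _ hBr3 (tendsto_ind K c)).trans (by linarith)
  have hS1 := v4 _ _ hBA hBE'
  have hR1 := v4 _ _ hBr1 hBr2
  have hR2 := v4 _ _ hR1.1 hBr3
  have hq1 := q4 _ _ (a K) ((l - a K) + W K + c) hS1.1 hR2.1
  have hq2 := q4 _ _ ((l - a K) + W K) c hR1.1 hBr3
  have hq3 := q4 _ _ (l - a K) (W K) hBr1 hBr2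
  have e1 : (fun t => a (min t K) + E' t + (a (max t K) - a K + W (min t K) + ind K c t)) =
      fun t => a t + W t := by
    funext t
    simp only [hE'def]
    rcases le_total t K with h | h
    · rw [max_eq_right h, min_eq_left h]
      ring
    · rw [max_eq_left h, min_eq_right h]
      ring
  have e2 : a K + ((l - a K) + W K + c) = l + m i := by
    rw [hc]
    ring
  rw [e1, e2] at hq1
  have hfin : Qv (fun t => a t + W t) (l + m i) ≤
      Qv (fun t => a (min t K) + E' t) (a K) + 8 * η := by linarith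
  have hVa : V a ≤ c0 := v3 a c0 hc00 (by rw [hc0sq]; exact ha)
  have hVW : V W ≤ c0 := v3 W c0 hc00 (by rw [hc0sq]; exact hwi)
  have hQa : Qv a l ≤ 2 * c0 := (q6 a l hBa hal).trans (by linarith)
  exact numbers (Qv a l) (V W) (Qv (fun t => a (min t K) + E' t) (a K)) _ η
    (Qv (fun t => a (min t K)) (a K)) (V E') c0 ε (q1 _ _) (v1 _) (q1 _ _) hηpos hη1 (q1 _ _)
    (v1 _) hA hVE' hsep hfin (q1 _ _) hQa hVW hηD

end Pool.Agent.Helper44.NT.UPP
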